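import Mathlib
import Pool.Agent.TH994.LR.Inf

set_option autoImplicit false

open MeasureTheory ProbabilityTheory
open scoped ENNReal NNReal

namespace Pool.Agent.Results.MP_7c03a7_pr.DimGtOne

/-! ### Definitions used in the statement -/

/-- A generating measure on the group `Γ`: a probability measure on `Γ` (given by its mass
function) which is symmetric and whose support generates `Γ` as a group. -/
structure GeneratingMeasure (Γ : Type*) [Group Γ] where
  /-- the probability mass function -/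
  mass : PMF Γ
  /-- symmetry -/
  symm : ∀ g : Γ, mass g = mass g⁻¹
  /-- the support generates the group -/
  gen : Subgroup.closure mass.support = ⊤

/-- The unordered pairs `{g, h}` of distinct elements of `Γ`. -/
abbrev Pair (Γ : Type*) : Type _ := {e : Sym2 Γ // ¬ e.IsDiag}

/-- The weight `μ (g⁻¹ h)` of the pair `{g, h}`. -/
noncomputable def weight {Γ : Type*} [Group Γ] (μ : GeneratingMeasure Γ) : Sym2 Γ → ℝ≥0 :=
  Sym2.lift ⟨fun g h => (μ.mass (g⁻¹ * h)).toNNReal, fun g h => by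
    show (μ.mass (g⁻¹ * h)).toNNReal = (μ.mass (h⁻¹ * g)).toNNReal
    rw [μ.symm (g⁻¹ * h), mul_inv_rev, inv_inv]⟩

/-- The law of the random multigraph `Γ_μ(t)`: the multiplicities of the pairs are independent,
and the multiplicity of `{g, h}` is Poisson with mean `t μ (g⁻¹ h)`. -/
noncomputable def law {Γ : Type*} [Group Γ] (μ : GeneratingMeasure Γ) (t : ℝ≥0) :
    Measure (Pair Γ → ℕ) :=
  Measure.infinitePi fun e : Pair Γ => poissonMeasure (t * weight μ e)

/-- The graph obtained from the multiplicities `ω` by merging parallel edges: two distinct elements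
are joined when the multiplicity of the pair is positive. -/
def openGraph {Γ : Type*} (ω : Pair Γ → ℕ) : SimpleGraph Γ where
  Adj g h := ∃ hne : ¬ (s(g, h)).IsDiag, 0 < ω ⟨s(g, h), hne⟩
  symm := ⟨fun g h hgh => by
    obtain ⟨hne, hω⟩ := hgh
    have e : (s(h, g) : Sym2 Γ) = s(g, h) := Sym2.eq_swap
    refine ⟨by rwa [e], ?_⟩
    have : (⟨s(h, g), by rwa [e]⟩ : Pair Γ) = ⟨s(g, h), hne⟩ := Subtype.ext e
    rw [this]; exact hω⟩
  loopless := ⟨fun g hg => hg.1 (Sym2.mk_isDiag_iff.2 rfl)⟩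

/-- The graph has an infinite connected component. -/
def HasInfiniteComponent {V : Type*} (G : SimpleGraph V) : Prop :=
  ∃ C : G.ConnectedComponent, C.supp.Infinite

/-- The critical parameter `λ_c(μ)`: the supremum in `[0, ∞]` of the `t > 0` for which `Γ_μ(t)`
has an infinite connected component with probability zero. -/
noncomputable def criticalParameter {Γ : Type*} [Group Γ] (μ : GeneratingMeasure Γ) : ℝ≥0∞ :=
  sSup {s : ℝ≥0∞ | ∃ t : ℝ≥0, 0 < t ∧
    law μ t {ω | HasInfiniteComponent (openGraph ω)} = 0 ∧ s = (t : ℝ≥0∞)}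

/-- The boundary `|∂S| = ∑_{g ∈ S, h ∉ S} μ (g⁻¹ h)` of a finite set. -/
noncomputable def boundary {Γ : Type*} [Group Γ] (μ : GeneratingMeasure Γ) (S : Finset Γ) :
    ℝ≥0∞ :=
  ∑ g ∈ S, ∑' h : {h : Γ // h ∉ S}, μ.mass (g⁻¹ * (h : Γ))

/-- The isoperimetric dimension of `μ`: the supremum in `[0, ∞]` of the real `d > 0` for which the
infimum of `|∂S| / |S| ^ ((d - 1) / d)` over the finite nonempty sets `S` is positive. -/
noncomputable def dim {Γ : Type*} [Group Γ] (μ : GeneratingMeasure Γ) : ℝ≥0∞ :=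
  sSup {s : ℝ≥0∞ | ∃ d : ℝ, 0 < d ∧
    0 < (⨅ (S : Finset Γ) (_ : S.Nonempty),
      boundary μ S / ENNReal.ofReal ((S.card : ℝ) ^ ((d - 1) / d))) ∧
    s = ENNReal.ofReal d}

/-! ### Proof -/

open Pool.Agent.TH994.LR

theorem coe_weight {Γ : Type*} [Group Γ] (μ : GeneratingMeasure Γ) (x y : Γ) :
    (weight μ s(x, y) : ℝ≥0∞) = μ.mass (x⁻¹ * y) :=
  ENNReal.coe_toNNReal (PMF.apply_ne_top _ _)

theorem outW_eq {Γ : Type*} [Group Γ] [DecidableEq Γ] (μ : GeneratingMeasure Γ) (S : Finset Γ) :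
    outW (weight μ) S = boundary μ S := by
  unfold outW boundary
  refine Finset.sum_congr rfl fun x _ => ?_
  have e := tsum_subtype {y | y ∉ S} (fun y => μ.mass (x⁻¹ * y))
  rw [show (∑' h : {h : Γ // h ∉ S}, μ.mass (x⁻¹ * (h : Γ))) =
    ∑' h : ({y | y ∉ S} : Set Γ), μ.mass (x⁻¹ * (h : Γ)) from rfl, e]
  refine tsum_congr fun y => ?_
  rw [coe_weight]
  by_cases hy : y ∈ S <;> simp [hy]

theorem tsum_weight {Γ : Type*} [Group Γ] (μ : GeneratingMeasure Γ) (x : Γ) :
    ∑' y, (weight μ s(x, y) : ℝ≥0∞) ≠ ⊤ := by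
  have : ∑' y, (weight μ s(x, y) : ℝ≥0∞) = 1 := by
    simp only [coe_weight]
    exact ((Equiv.mulLeft x⁻¹).tsum_eq (fun y => μ.mass y)).trans μ.mass.tsum_coe
  rw [this]; exact ENNReal.one_ne_top

/-- **A generating measure of isoperimetric dimension larger than one has a finite critical
parameter.** -/
theorem result (Γ : Type*) [Group Γ] [Countable Γ] (μ : GeneratingMeasure Γ) (h : 1 < dim μ) :
    criticalParameter μ < ⊤ := by
  classical
  obtain ⟨s, ⟨d, hd0, hinf, rfl⟩, hd1⟩ := lt_sSup_iff.1 h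
  have hd : 1 < d := by
    rw [← ENNReal.ofReal_one] at hd1
    exact (ENNReal.ofReal_lt_ofReal_iff hd0).1 hd1
  set ε : ℝ := (d - 1) / d with hε
  have hε0 : 0 < ε := div_pos (by linarith) hd0
  obtain ⟨c, hc0, hc⟩ : ∃ c : ℝ, 0 < c ∧ ENNReal.ofReal c ≤
      ⨅ (S : Finset Γ) (_ : S.Nonempty), boundary μ S / ENNReal.ofReal ((S.card : ℝ) ^ ε) := by
    obtain ⟨c, hc0, hc⟩ := ENNReal.lt_iff_exists_nnreal_btwn.1 hinf
    exact ⟨c, by exact_mod_cast hc0, by rw [ENNReal.ofReal_coe_nnreal]; exact hc.le⟩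
  have hS : ∀ S : Finset Γ, S.Nonempty →
      ENNReal.ofReal (c * (S.card : ℝ) ^ ε) ≤ boundary μ S := by
    intro S hS
    have h1 : ENNReal.ofReal c ≤ boundary μ S / ENNReal.ofReal ((S.card : ℝ) ^ ε) :=
      hc.trans (iInf₂_le S hS)
    have hpos : (0 : ℝ) < (S.card : ℝ) ^ ε :=
      Real.rpow_pos_of_pos (by exact_mod_cast Finset.card_pos.2 hS) _
    rw [ENNReal.ofReal_mul hc0.le]
    rwa [ENNReal.le_div_iff_mul_le (Or.inl (ENNReal.ofReal_pos.2 hpos).ne')
      (Or.inl ENNReal.ofReal_ne_top)] at h1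
  -- the lower bounds
  set ρ : ℝ := (2 : ℝ) ^ (ε / 2) with hρdef
  have hρ : 1 < ρ := Real.one_lt_rpow (by norm_num) (by linarith)
  have hρ0 : 0 < ρ := by linarith
  let ψ : ℕ → ℝ := fun r => c / 2 * (ρ ^ r) ^ 2
  have hψ0 : ∀ r, 0 < ψ r := fun r => by positivity
  have hmono : ∀ r, ψ 0 ≤ ψ r := by
    intro r
    have h1 : (1 : ℝ) ≤ ρ ^ r := one_le_pow₀ hρ.le
    have h2 : (1 : ℝ) ≤ (ρ ^ r) ^ 2 := one_le_pow₀ h1
    simp only [ψ, pow_zero, one_pow, mul_one]
    nlinarith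
  have hψ : ∀ r (D : Finset Γ), D.Nonempty → 2 ^ r ≤ D.card →
      ENNReal.ofReal (2 * ψ r) ≤ outW (weight μ) D := by
    intro r D hD hcard
    rw [outW_eq]
    refine le_trans (ENNReal.ofReal_le_ofReal ?_) (hS D hD)
    have h1 : (ρ ^ r) ^ 2 = ((2 : ℝ) ^ r) ^ ε := by
      have e1 : ρ ^ 2 = (2 : ℝ) ^ ε := by
        rw [hρdef, ← Real.rpow_natCast, ← Real.rpow_mul (by norm_num)]
        congr 1
        push_cast; ring
      rw [← pow_mul, mul_comm r 2, pow_mul, e1, ← Real.rpow_natCast, ← Real.rpow_natCast,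
        ← Real.rpow_mul (by norm_num), ← Real.rpow_mul (by norm_num), mul_comm]
    have h2 : ((2 : ℝ) ^ r) ^ ε ≤ (D.card : ℝ) ^ ε :=
      Real.rpow_le_rpow (by positivity) (by exact_mod_cast hcard) hε0.le
    simp only [ψ]
    rw [h1]
    nlinarith
  have hx0 : 0 ≤ ρ⁻¹ := by positivity
  have hx1 : ρ⁻¹ < 1 := inv_lt_one_of_one_lt₀ hρ
  have hgeo : ∀ k : ℕ, ∑ j ∈ Finset.range k, (ρ⁻¹) ^ j ≤ (1 - ρ⁻¹)⁻¹ := by
    intro k
    rw [← tsum_geometric_of_lt_one hx0 hx1]
    exact (summable_geometric_of_lt_one hx0 hx1).sum_le_tsum _ fun _ _ => by positivity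
  have hS1 : ∀ k, ∑ j ∈ Finset.range k, (ψ j)⁻¹ ≤ 2 / c * (1 - ρ⁻¹)⁻¹ := by
    intro k
    refine le_trans ?_ (mul_le_mul_of_nonneg_left (hgeo k) (by positivity))
    rw [Finset.mul_sum]
    refine Finset.sum_le_sum fun j _ => ?_
    have h1 : (1 : ℝ) ≤ ρ ^ j := one_le_pow₀ hρ.le
    simp only [ψ]
    rw [mul_inv, inv_div, inv_pow]
    refine mul_le_mul_of_nonneg_left ?_ (by positivity)
    apply inv_anti₀ (by positivity)
    nlinarith
  have hS3 : ∀ k, ∑ j ∈ Finset.range k, Real.log (1 + ψ j) / ψ j ≤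
      2 / Real.sqrt (c / 2) * (1 - ρ⁻¹)⁻¹ := by
    intro k
    refine le_trans ?_ (mul_le_mul_of_nonneg_left (hgeo k) (by positivity))
    rw [Finset.mul_sum]
    refine Finset.sum_le_sum fun j _ => ?_
    have hj := hψ0 j
    have h1 : Real.sqrt (ψ j) = Real.sqrt (c / 2) * ρ ^ j := by
      simp only [ψ]
      rw [Real.sqrt_mul (by positivity), Real.sqrt_sq (by positivity)]
    have h2 : Real.log (1 + ψ j) ≤ 2 * Real.sqrt (ψ j) := by
      have h3 : 1 + ψ j ≤ (1 + Real.sqrt (ψ j)) ^ 2 := by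
        have := Real.sq_sqrt hj.le
        have := Real.sqrt_nonneg (ψ j)
        nlinarith
      have h4 : Real.log (1 + ψ j) ≤ Real.log ((1 + Real.sqrt (ψ j)) ^ 2) :=
        Real.log_le_log (by linarith) h3
      rw [Real.log_pow] at h4
      have h5 : Real.log (1 + Real.sqrt (ψ j)) ≤ Real.sqrt (ψ j) := by
        have := Real.log_le_sub_one_of_pos
          (by have := Real.sqrt_nonneg (ψ j); linarith : (0 : ℝ) < 1 + Real.sqrt (ψ j))
        linarith
      push_cast at h4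
      linarith
    rw [div_le_iff₀ hj]
    refine h2.trans (le_of_eq ?_)
    have h6 : ψ j = Real.sqrt (ψ j) * Real.sqrt (ψ j) := (Real.mul_self_sqrt hj.le).symm
    rw [h6, h1, inv_pow]
    have hsq : 0 < Real.sqrt (c / 2) := Real.sqrt_pos.2 (by positivity)
    rw [Real.sqrt_mul_self (by positivity)]
    field_simp
  obtain ⟨t0, ht0⟩ := exists_threshold (wt := weight μ) (tsum_weight μ) hψ0 hmono hψ hS1 hS3
    (G := openGraph) (fun _ _ _ => Iff.rfl)
  have hle : criticalParameter μ ≤ ENNReal.ofReal t0 := by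
    apply sSup_le
    rintro s ⟨t, _, h0, rfl⟩
    by_contra hcon
    have ht : t0 ≤ (t : ℝ) := by
      by_contra hno
      apply hcon
      rw [← ENNReal.ofReal_coe_nnreal]
      exact ENNReal.ofReal_le_ofReal (not_le.1 hno).le
    refine ht0 (t : ℝ) ht (fun e => poissonMeasure (t * weight μ e)) (fun e => inferInstance)
      (fun e => ?_) 1 (measure_mono_null ?_ h0)
    · rw [poissonMeasure_singleton]
      simp
    · intro ω hω
      refine ⟨(openGraph ω).connectedComponentMk 1, ?_⟩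
      refine Set.Infinite.mono ?_ hω
      intro y hy
      rw [SimpleGraph.ConnectedComponent.mem_supp_iff]
      exact (SimpleGraph.ConnectedComponent.eq.2 hy).symm
  exact hle.trans_lt ENNReal.ofReal_lt_top

end Pool.Agent.Results.MP_7c03a7_pr.DimGtOne
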